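import Pool.Agent.Helper9K9.DT.Sign

/-!
# The Kunneth projectors of `perf_dg(X)` and the determinants of `HP^±`

Let `X` be a smooth projective variety over a field `k` and `W` a Weil cohomology theory with
coefficient field `K`, for example the de Rham cohomology over a field `k` of characteristic zero
with coefficients extended to a field `F` containing `k`. In this example, by the theorem of
Hochschild, Kostant and Rosenberg, the even and the odd part of `H(X)` are `HP^±(perf_dg(X))` (over
`F`), and by Grothendieck, Riemann and Roch the image of `K_0(X × X)_F` is the `F`-span of the
classes of the cycles of all codimensions on `X × X`; so the Kunneth projectors of `perf_dg(X)` are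
algebraic (with coefficients in `F`) if and only if the projectors of `H(X)` to its even and to its
odd part are given by `F`-combinations of classes of cycles of all codimensions.

We prove that this is equivalent to the algebraicity of one class, in two ways. Let `b` be the
dimension of the even part (or of the odd part), and let `det H^±(X)` be the line in `H(X ^ b)`
spanned by the alternating sum of `v_(σ 1) × … × v_(σ b)` over all permutations `σ`, where
`v_1, …, v_b` is a basis of the even part (the odd part). Then both projectors are algebraic if and
only if the line `det H^+(X) ⊗ det H^+(X)` in `H(X ^ b × X ^ b)` is algebraic, and if and only if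
the line `det H^-(X) ⊗ det H^-(X)` is algebraic.
-/

set_option autoImplicit false

open Pool.Agent.H914 Pool.Agent.Helper9K9.DT

universe u v

namespace Pool.Agent.Results.MP_eadf0f_ag.SignDeterminant

/-- **The sign projectors are algebraic if and only if the square of the determinant of the even
part of the cohomology is algebraic, if and only if the square of the determinant of the odd part
is algebraic.** -/
theorem result {k : Type u} [Field k] {𝒱 : VarClass k} {ops : CycleOps 𝒱}
    (X : 𝒱.Obj) (W : WeilCohomology.{u, v} ops) :
    List.TFAE [
      SignProjAlgebraic W X 0,
      SignProjAlgebraic W X 1,
      SignDetAlgebraic W X 0,
      SignDetAlgebraic W X 1] :=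
  sign_tfae

end Pool.Agent.Results.MP_eadf0f_ag.SignDeterminant
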