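import Pool.Agent.Helper3K9.ZF.All4

/-!
# The noncommutative Künneth standard conjecture and zeta functions of correspondences

Let `C` be a `ℚ`-linear rigid symmetric monoidal category in which the endomorphisms of the unit
object are the rational numbers, and `R` a symmetric monoidal additive functor to finite dimensional
super vector spaces over a field `K` of characteristic zero. The example is `C = NChow(k)_ℚ`, the
category of noncommutative Chow motives over a field `k` of characteristic zero, and `R = HP^±`
(with `K = k`, or with `K` a field containing `k`). For a saturated dg category `A` the
endomorphisms of `M = U(A)` are the elements `f` of `K_0(A^op ⊗ A)_ℚ`, the supertrace of `f ^ n` is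
the Euler characteristic of the Hochschild homology of `A` with coefficients in `f ^ n`, and
`C_NC(A)` with coefficients in a field `F` says that the projector to the even part is a combination
of the `R(f)` with coefficients in `F` (the functor is extended to `F` if `F` contains `k`).

1. Every endomorphism `f` of `M` has a zeta function `exp (∑ str (f ^ n) / n * T ^ n) = P / Q` with
   coprime polynomials `P`, `Q` with rational coefficients, of degrees at most `dim HP^-` and
   `dim HP^+`.
2. The following are equivalent: the projector to the even part is the realisation of an
   endomorphism of `M`; it is a combination of such realisations with coefficients in `K`; some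
   endomorphism of `M` is killed by coprime polynomials (over `K`) on the even and on the odd part;
   every subspace stable under the endomorphisms of `M` is graded; the even part and the odd part
   have no nonzero isomorphic subquotients over the endomorphisms of `M`; and some endomorphism of
   `M` has a zeta function with numerator of degree `dim HP^-` and denominator of degree
   `dim HP^+`.
3. So the conjecture does not depend on the coefficient field: for all subfields `F` of `K` the
   statements with coefficients in `F` are equivalent.
-/

set_option autoImplicit false

open CategoryTheory Limits MonoidalCategory Polynomial

namespace Pool.Agent.Results.MP_eadf0f_ag.ZetaFunctions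

open Pool.Agent.Y112.SR Pool.Agent.Helper3K9.ZF

universe v u w

/-- **The noncommutative Künneth conjecture, zeta functions, and the field of coefficients.** -/
theorem result {C : Type u} [Category.{v} C] [Preadditive C] [Linear ℚ C] [MonoidalCategory C]
    [MonoidalPreadditive C] [MonoidalLinear ℚ C] [SymmetricCategory C] [RightRigidCategory C]
    (hC : RationalUnit C) {K : Type w} [Field K] [CharZero K] (R : SuperRealisation C K) (M : C) :
    ZetaBounded R M ∧
    [R.CPlus M, SpanC R M, CoprimeC R M, StableC R M, NoCommonC R M, ZetaFull R M].TFAE ∧
    ∀ F : Subfield K, SpanIn R M F ↔ R.CPlus M :=
  final4 hC R M

end Pool.Agent.Results.MP_eadf0f_ag.ZetaFunctions
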